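import Mathlib

/-!
Multigraded Hilbert schemes (Haiman and Sturmfels) of the polynomial ring in three variables,
through their functor of points.

For a `k`-algebra `T` the ring `T ⊗_k k[x₁,x₂,x₃]` is written `T[x₁,x₂,x₃] = MvPolynomial (Fin 3) T`.
A grading `deg : ℤ³ → A` is given by the degrees `w i = deg eᵢ` of the three variables; the degree
`a` piece of `T[x₁,x₂,x₃]` is Mathlib's `weightedHomogeneousSubmodule T w a`.
-/

open MvPolynomial AlgebraicGeometry CategoryTheory

universe u v

namespace Pool.Agent.MP_411355_ag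

/-- `M` is locally free of rank `n` over `T`: `Spec T` is covered by basic opens `D(f)` with
`M_f ≅ (T_f)^n` as `T_f`-modules. -/
def IsLocallyFreeOfRank (T : Type u) [CommRing T] (M : Type u) [AddCommGroup M] [Module T M]
    (n : ℕ) : Prop :=
  ∃ s : Set T, Ideal.span s = ⊤ ∧ ∀ f ∈ s,
    Nonempty (LocalizedModule (Submonoid.powers f) M ≃ₗ[Localization.Away f]
      (Fin n → Localization.Away f))

/-- `I ⊆ T[x₁,x₂,x₃]` is homogeneous for the grading `deg xᵢ = w i`, and for every degree `a` the
`T`-module `T[x₁,x₂,x₃]_a / I_a` is locally free of rank `h a`. -/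
def IsHilbertPoint {A : Type v} [AddCommGroup A] (w : Fin 3 → A) (h : A → ℕ)
    (T : Type u) [CommRing T] (I : Ideal (MvPolynomial (Fin 3) T)) : Prop :=
  (∀ f ∈ I, ∀ a : A, weightedHomogeneousComponent w a f ∈ I) ∧
  ∀ a : A, IsLocallyFreeOfRank T
    (weightedHomogeneousSubmodule T w a ⧸
      (I.restrictScalars T).submoduleOf (weightedHomogeneousSubmodule T w a)) (h a)

/-- The `T`-points of a `k`-scheme `π : H ⟶ Spec k`: morphisms `Spec T ⟶ H` over `Spec k`. -/
def PointsOver (k : Type u) [Field k] (H : Scheme.{u}) (π : H ⟶ Spec (CommRingCat.of k))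
    (T : Type u) [CommRing T] [Algebra k T] : Type u :=
  {g : Spec (CommRingCat.of T) ⟶ H // g ≫ π = Spec.map (CommRingCat.ofHom (algebraMap k T))}

/-- The `k`-scheme `π : H ⟶ Spec k` represents the multigraded Hilbert functor: for all
`k`-algebras `T` there are bijections from the `T`-points of `H` to the ideals counted by
`IsHilbertPoint w h T`, natural in `T` (a `k`-algebra map `φ : T → T'` acts on ideals by
extension along `T[x₁,x₂,x₃] → T'[x₁,x₂,x₃]`). -/
def IsMultigradedHilbertScheme (k : Type u) [Field k] {A : Type v} [AddCommGroup A]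
    (w : Fin 3 → A) (h : A → ℕ) (H : Scheme.{u}) (π : H ⟶ Spec (CommRingCat.of k)) : Prop :=
  ∃ e : ∀ (T : Type u) [CommRing T] [Algebra k T],
      PointsOver k H π T ≃ {I : Ideal (MvPolynomial (Fin 3) T) // IsHilbertPoint w h T I},
    ∀ (T T' : Type u) [CommRing T] [Algebra k T] [CommRing T'] [Algebra k T'] (φ : T →ₐ[k] T')
      (g : PointsOver k H π T) (g' : PointsOver k H π T'),
      g'.1 = Spec.map (CommRingCat.ofHom φ.toRingHom) ≫ g.1 →
      (e T' g').1 = Ideal.map (MvPolynomial.map φ.toRingHom) (e T g).1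

end Pool.Agent.MP_411355_ag
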